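import Pool.Agent.Work.MP_ef7f46_co_helper75.Asym1

/-!
MP_ef7f46_co, block Asym (helper75): choice of the parameters.
-/

set_option autoImplicit false
open Classical

namespace EpsNet

open EpsNet.AsymAux

theorem stmt_Asym : Stmt_Asym := by
  refine ⟨1 / 1920000, by norm_num, Real.exp (-(10 ^ 20)), Real.exp_pos _, ?_, ?_⟩
  · have h1 : (10 : ℝ) ^ 20 + 1 ≤ Real.exp (10 ^ 20) := Real.add_one_le_exp _
    have h2 : (16 : ℝ) < Real.exp (10 ^ 20) := lt_of_lt_of_le (by norm_num) h1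
    rw [Real.exp_neg, ← one_div]
    exact one_div_lt_one_div_of_lt (by norm_num) h2
  intro ε hε hε'
  obtain ⟨L, hL⟩ : ∃ L : ℝ, L = Real.log (1 / ε) := ⟨_, rfl⟩
  have hLε : Real.log ε = -L := by rw [hL, one_div, Real.log_inv]; ring
  have hL20 : (10 : ℝ) ^ 20 < L := by
    have := (Real.log_lt_iff_lt_exp hε).mpr hε'
    linarith
  have hexpL : ε * Real.exp L = 1 := by
    have : ε = Real.exp (-L) := by rw [← hLε, Real.exp_log hε]
    rw [this, ← Real.exp_add]; simp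
  have hL0 : 0 < L := lt_trans (by norm_num) hL20
  obtain ⟨r, hr⟩ : ∃ r : ℝ, r = Real.sqrt L := ⟨_, rfl⟩
  have hr2 : r * r = L := by rw [hr]; exact Real.mul_self_sqrt hL0.le
  have hr10 : (10 : ℝ) ^ 10 ≤ r := by
    rw [hr]; apply Real.le_sqrt_of_sq_le
    calc ((10 : ℝ) ^ 10) ^ 2 = 10 ^ 20 := by norm_num
      _ ≤ L := hL20.le
  have hr0 : 0 < r := lt_of_lt_of_le (by norm_num) hr10
  obtain ⟨lam, hlam⟩ : ∃ lam : ℝ, lam = Real.log L := ⟨_, rfl⟩
  have hlam1 : lam = 2 * Real.log r := by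
    rw [hlam, ← hr2, Real.log_mul hr0.ne' hr0.ne']; ring
  have hlamr : lam ≤ r / 2500 := by
    have := log_small (le_trans (by norm_num) hr10 : (10 : ℝ) ^ 9 ≤ r)
    rw [hlam1]; linarith
  have hlam_one : 1 ≤ lam := by
    rw [hlam, Real.le_log_iff_exp_le hL0]
    have := Real.exp_one_lt_d9
    linarith [show (2.7182818286 : ℝ) ≤ 10 ^ 20 by norm_num]
  have hlam0 : 0 < lam := by linarith
  -- the choice of `k`
  obtain ⟨k, hk⟩ : ∃ k : ℕ, k = ⌊L / (200 * lam)⌋₊ := ⟨_, rfl⟩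
  have hk1 : (k : ℝ) ≤ L / (200 * lam) := by rw [hk]; exact Nat.floor_le (by positivity)
  have hk2 : L / (200 * lam) < (k : ℝ) + 1 := by rw [hk]; exact Nat.lt_floor_add_one _
  have hbig : 12 * r ≤ L / (200 * lam) := by
    rw [le_div_iff₀ (by positivity)]
    calc 12 * r * (200 * lam) ≤ 12 * r * (200 * (r / 2500)) := by gcongr
      _ ≤ r * r := by nlinarith
      _ = L := hr2
  have hkr : r ≤ (k : ℝ) := by linarith [show (1 : ℝ) ≤ 10 ^ 10 by norm_num]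
  have hk9 : (10 : ℝ) ^ 9 ≤ (k : ℝ) := le_trans (by norm_num) (le_trans hr10 hkr)
  have hk9' : 10 ^ 9 ≤ k := by exact_mod_cast hk9
  have hk0 : (0 : ℝ) < k := lt_of_lt_of_le (by norm_num) hk9
  have hk1' : (1 : ℝ) ≤ k := le_trans (by norm_num) hk9
  have hk400 : L / (400 * lam) ≤ (k : ℝ) := by
    have e : L / (400 * lam) = L / (200 * lam) / 2 := by field_simp; ring
    rw [e]
    linarith [show (2 : ℝ) ≤ 10 ^ 10 by norm_num]
  have hkL : (k : ℝ) ≤ L := by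
    refine le_trans hk1 ?_
    rw [div_le_iff₀ (by positivity)]
    nlinarith
  have hlogk : Real.log k ≤ lam := by
    rw [hlam]; exact Real.log_le_log hk0 hkL
  have hlogk0 : 0 ≤ Real.log k := Real.log_nonneg hk1'
  have hlogk' : Real.log k ≤ k / 5000 := log_small hk9
  have hlamk : lam ≤ 2 * Real.log k := by
    rw [hlam1]
    have := Real.log_le_log hr0 hkr
    linarith
  have hLk : L ≤ (k : ℝ) ^ 2 := by
    have h1 : L < ((k : ℝ) + 1) * (200 * lam) := by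
      rwa [div_lt_iff₀ (by positivity)] at hk2
    have h2 : ((k : ℝ) + 1) * (200 * lam) ≤ (2 * k) * (200 * (2 * (k / 5000))) := by
      have : lam ≤ 2 * ((k : ℝ) / 5000) := by linarith
      have : (k : ℝ) + 1 ≤ 2 * k := by linarith
      gcongr
    nlinarith
  -- the choice of `s`
  obtain ⟨u, hu⟩ : ∃ u : ℝ, u = (k : ℝ) ^ 9 / Real.sqrt (3072 * ε) := ⟨_, rfl⟩
  have hsq0 : 0 < Real.sqrt (3072 * ε) := Real.sqrt_pos.mpr (by positivity)
  have hsq : Real.sqrt (3072 * ε) ^ 2 = 3072 * ε := Real.sq_sqrt (by positivity)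
  have hu0 : 0 < u := by rw [hu]; positivity
  have hu2 : u ^ 2 = (k : ℝ) ^ 18 / (3072 * ε) := by
    rw [hu, div_pow, hsq]; ring
  have hpowk : ((k : ℝ) ^ (99 * k)) ^ 2 * ε ≤ 1 := by
    have h1 : ((k : ℝ) ^ (99 * k)) ^ 2 = Real.exp ((198 * k) * Real.log k) := by
      rw [← pow_mul, ← Real.exp_log (pow_pos hk0 (99 * k * 2)), Real.log_pow]
      congr 1
      push_cast; ring
    have h2 : (198 * (k : ℝ)) * Real.log k ≤ L := by
      calc (198 * (k : ℝ)) * Real.log k ≤ (198 * (L / (200 * lam))) * lam := by gcongr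
        _ = 198 / 200 * L := by field_simp
        _ ≤ L := by linarith
    rw [h1]
    calc Real.exp ((198 * k) * Real.log k) * ε ≤ Real.exp L * ε := by
          have := Real.exp_le_exp.mpr h2
          gcongr
      _ = 1 := by rw [mul_comm]; exact hexpL
  have hku : (k : ℝ) ^ (99 * k) ≤ u := by
    have h18 : (3072 : ℝ) ≤ (k : ℝ) ^ 18 := by
      calc (3072 : ℝ) ≤ k := le_trans (by norm_num) hk9
        _ = (k : ℝ) ^ 1 := (pow_one _).symm
        _ ≤ (k : ℝ) ^ 18 := pow_le_pow_right₀ hk1' (by norm_num)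
    have : ((k : ℝ) ^ (99 * k)) ^ 2 ≤ u ^ 2 := by
      rw [hu2, le_div_iff₀ (by positivity)]
      calc ((k : ℝ) ^ (99 * k)) ^ 2 * (3072 * ε) = 3072 * (((k : ℝ) ^ (99 * k)) ^ 2 * ε) := by ring
        _ ≤ 3072 * 1 := by gcongr
        _ ≤ (k : ℝ) ^ 18 := by linarith
    exact le_of_sq_le_sq this hu0.le
  obtain ⟨s, hs⟩ : ∃ s : ℕ, s = ⌊u⌋₊ := ⟨_, rfl⟩
  have hs1 : (s : ℝ) ≤ u := by rw [hs]; exact Nat.floor_le hu0.le
  have hs2 : u < (s : ℝ) + 1 := by rw [hs]; exact Nat.lt_floor_add_one _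
  have hsk : k ^ (99 * k) ≤ s := by
    rw [hs]; apply Nat.le_floor
    push_cast; exact hku
  have hskR : (k : ℝ) ^ (99 * k) ≤ (s : ℝ) := by exact_mod_cast hsk
  have hpow1 : ∀ n : ℕ, (1 : ℝ) ≤ (k : ℝ) ^ n := fun n => one_le_pow₀ hk1'
  have hk1n : 1 ≤ k := le_trans (by norm_num) hk9'
  have hk38 : (k : ℝ) ^ 38 ≤ s :=
    le_trans (pow_le_pow_right₀ hk1' (by omega)) hskR
  have hs1' : (1 : ℝ) ≤ s := le_trans (hpow1 _) hskR
  have hs0 : (0 : ℝ) < s := by linarith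
  have hsu : u / 2 ≤ (s : ℝ) := by linarith
  have hlogs : Real.log s ≤ (k : ℝ) ^ 2 := by
    have h1 : Real.log s ≤ Real.log u := Real.log_le_log hs0 hs1
    have h2 : 2 * Real.log u = 18 * Real.log k - Real.log 3072 + L := by
      have : 2 * Real.log u = Real.log (u ^ 2) := by rw [Real.log_pow]; push_cast; ring
      rw [this, hu2, Real.log_div (by positivity) (by positivity), Real.log_pow,
        Real.log_mul (by norm_num) hε.ne', hLε]
      push_cast; ring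
    have h3 : 0 ≤ Real.log 3072 := Real.log_nonneg (by norm_num)
    nlinarith
  obtain ⟨M, hM⟩ := asym1 k hk9' s hsk hlogs
  refine ⟨k, s, k ^ 20, _, M, _, _, _, hM, ?_, ?_⟩
  · rw [NN_real]
    have h1 : (s : ℝ) ^ 2 ≤ (k : ℝ) ^ 18 / (3072 * ε) := by
      rw [← hu2]; gcongr
    push_cast
    calc ε * (3 * (1024 * (k : ℝ) ^ 3 * (s : ℝ) ^ 2))
        ≤ ε * (3 * (1024 * (k : ℝ) ^ 3 * ((k : ℝ) ^ 18 / (3072 * ε)))) := by gcongr
      _ = (k : ℝ) * (k : ℝ) ^ 20 := by field_simp; ring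
  · rw [← hL, ← hlam]
    have hNk : (NN k s : ℝ) = 1024 * (k : ℝ) ^ 3 * (s : ℝ) ^ 2 := NN_real k s
    obtain ⟨x, hx⟩ : ∃ x : ℕ, x = NN k s / (200 * k ^ 20) := ⟨_, rfl⟩
    rw [← hx]
    have hmod : (NN k s : ℝ) ≤ 200 * (k : ℝ) ^ 20 * ((x : ℝ) + 1) := by
      have h1 : NN k s < 200 * k ^ 20 * (x + 1) := by
        rw [hx]
        exact Nat.lt_mul_div_succ _ (by positivity)
      exact_mod_cast h1.le
    have h2 : (2 : ℝ) * (200 * (k : ℝ) ^ 20) ≤ NN k s := by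
      rw [hNk]
      have h3 : (k : ℝ) ^ 20 ≤ (s : ℝ) ^ 2 := by
        calc (k : ℝ) ^ 20 ≤ (k : ℝ) ^ 38 := pow_le_pow_right₀ hk1' (by norm_num)
          _ ≤ s := hk38
          _ ≤ (s : ℝ) ^ 2 := by nlinarith
      have := hpow1 3
      nlinarith [pow_pos hs0 2]
    have h20 : (0 : ℝ) < (k : ℝ) ^ 20 := pow_pos hk0 20
    have h3 : (NN k s : ℝ) / (400 * (k : ℝ) ^ 20) ≤ x := by
      rw [div_le_iff₀ (by positivity)]
      nlinarith
    refine le_trans ?_ h3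
    have h4 : u ^ 2 / 4 ≤ (s : ℝ) ^ 2 := by nlinarith
    calc 1 / 1920000 * (1 / ε) * L / lam = (L / (400 * lam)) * (1 / (4800 * ε)) := by
          field_simp; ring
      _ ≤ (k : ℝ) * (1 / (4800 * ε)) := by gcongr
      _ = 1024 * (k : ℝ) ^ 3 * ((k : ℝ) ^ 18 / (3072 * ε) / 4) / (400 * (k : ℝ) ^ 20) := by
          field_simp; ring
      _ = 1024 * (k : ℝ) ^ 3 * (u ^ 2 / 4) / (400 * (k : ℝ) ^ 20) := by rw [hu2]
      _ ≤ (NN k s : ℝ) / (400 * (k : ℝ) ^ 20) := by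
          rw [hNk]; gcongr

end EpsNet
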