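import Pool.Agent.Work.MP_ef7f46_co.Interface

/-!
MP_ef7f46_co, block Asym, first half (helper75): admissible parameters for large `k`.
-/

set_option autoImplicit false
open Classical

namespace EpsNet.AsymAux

lemma NN_real (k s : ℕ) : (NN k s : ℝ) = 1024 * (k : ℝ) ^ 3 * (s : ℝ) ^ 2 := by
  unfold NN; push_cast; ring

lemma log_small {κ : ℝ} (h : 10 ^ 9 ≤ κ) : Real.log κ ≤ κ / 5000 := by
  have hκ : 0 < κ := by linarith [show (0 : ℝ) < 10 ^ 9 by norm_num]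
  set r := Real.sqrt κ with hr
  have hr2 : r * r = κ := Real.mul_self_sqrt hκ.le
  have hr0 : 0 < r := Real.sqrt_pos.mpr hκ
  have hr4 : 10 ^ 4 ≤ r := by
    rw [hr]
    apply Real.le_sqrt_of_sq_le
    refine le_trans ?_ h
    norm_num
  have h1 : Real.log κ = 2 * Real.log r := by
    rw [← hr2, Real.log_mul hr0.ne' hr0.ne']; ring
  have h2 : Real.log r ≤ r := Real.log_le_self hr0.le
  rw [h1]
  nlinarith

theorem asym1 (k : ℕ) (hk : 10 ^ 9 ≤ k) (s : ℕ) (hs : k ^ (99 * k) ≤ s)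
    (hl : Real.log s ≤ (k : ℝ) ^ 2) :
    ∃ M : ℕ, Params k s (k ^ 20) (NN k s / (200 * k ^ 20)) M ((k : ℝ) ^ 40) ((k : ℝ) ^ 6)
      ((k : ℝ) ^ 2) := by
  have hκ : (10 : ℝ) ^ 9 ≤ (k : ℝ) := by exact_mod_cast hk
  have hS' : ((k : ℝ) ^ (99 * k)) ≤ (s : ℝ) := by exact_mod_cast hs
  have hNN := NN_real k s
  have hxle : ((NN k s / (200 * k ^ 20) : ℕ) : ℝ) ≤ (NN k s : ℝ) / (200 * (k : ℝ) ^ 20) := by
    have := @Nat.cast_div_le ℝ _ _ _ (NN k s) (200 * k ^ 20)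
    push_cast at this
    exact this
  have hxmul : 200 * k ^ 20 * (NN k s / (200 * k ^ 20)) ≤ NN k s := Nat.mul_div_le _ _
  set κ : ℝ := (k : ℝ) with hκdef
  set S : ℝ := (s : ℝ) with hSdef
  set N : ℝ := (NN k s : ℝ) with hNdef
  set x : ℕ := NN k s / (200 * k ^ 20) with hx
  set ℓ : ℝ := Real.log S with hℓ
  have hκ1 : (1 : ℝ) ≤ κ := le_trans (by norm_num) hκ
  have hκ0 : (0 : ℝ) < κ := by linarith
  have hk1 : 1 ≤ k := le_trans (by norm_num) hk
  have hpow1 : ∀ n : ℕ, (1 : ℝ) ≤ κ ^ n := fun n => one_le_pow₀ hκ1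
  have hpow0 : ∀ n : ℕ, (0 : ℝ) < κ ^ n := fun n => pow_pos hκ0 n
  have hpm : ∀ {m n : ℕ}, m ≤ n → κ ^ m ≤ κ ^ n := fun h => pow_le_pow_right₀ hκ1 h
  have hS1 : (1 : ℝ) ≤ S := le_trans (hpow1 _) hS'
  have hS0 : (0 : ℝ) < S := by linarith
  have hℓ0 : 0 ≤ ℓ := Real.log_nonneg hS1
  have hℓ1 : 1 + ℓ ≤ 2 * κ ^ 2 := by nlinarith [hpow1 2]
  have hlogκ : Real.log κ ≤ κ / 5000 := log_small hκ
  have hlogκ0 : 0 ≤ Real.log κ := Real.log_nonneg hκ1
  -- powers of β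
  have hβ1 : κ ^ 39 ≤ κ ^ 40 - 1 := by
    have : κ ^ 40 = κ * κ ^ 39 := by ring
    nlinarith [hpow1 39]
  have hlogβ : Real.log (κ ^ 40) ≤ κ := by
    rw [Real.log_pow]; push_cast; linarith
  have hlogβ0 : 0 ≤ Real.log (κ ^ 40) := Real.log_nonneg (hpow1 40)
  have hN0 : 0 < N := by rw [hNN]; positivity
  have hS2 : κ ^ 38 ≤ S ^ 2 := by
    calc κ ^ 38 ≤ κ ^ (99 * k) := hpm (by omega)
      _ ≤ S := hS'
      _ ≤ S ^ 2 := by nlinarith
  have hN38 : κ ^ 38 ≤ N := by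
    rw [hNN]
    have : (1 : ℝ) ≤ 1024 * κ ^ 3 := by linarith [hpow1 3]
    nlinarith [hpow0 38, sq_nonneg S]
  -- the number of steps
  obtain ⟨A, hA⟩ : ∃ A : ℝ, A = (8192 * N * (κ + 1) * Real.log (κ ^ 40) /
    ((κ ^ 40 - 1) * (4 * κ)) + 1) * (64 * κ ^ 6 * κ ^ 2 / (4 * κ) + 2) := ⟨_, rfl⟩
  have hA1 : 8192 * N * (κ + 1) * Real.log (κ ^ 40) / ((κ ^ 40 - 1) * (4 * κ)) ≤ N / κ ^ 37 := by
    rw [div_le_div_iff₀ (by have := hpow0 39; nlinarith) (hpow0 37)]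
    calc 8192 * N * (κ + 1) * Real.log (κ ^ 40) * κ ^ 37
        ≤ 8192 * N * (2 * κ) * κ * κ ^ 37 := by
          have h1 : κ + 1 ≤ 2 * κ := by linarith
          gcongr
      _ = N * (4096 * κ ^ 38 * (4 * κ)) := by ring
      _ ≤ N * (κ ^ 39 * (4 * κ)) := by
          have : 4096 * κ ^ 38 ≤ κ ^ 39 := by
            have : κ ^ 39 = κ * κ ^ 38 := by ring
            rw [this]
            have := hpow0 38
            nlinarith
          gcongr
      _ ≤ N * ((κ ^ 40 - 1) * (4 * κ)) := by gcongr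
  have hA2 : 64 * κ ^ 6 * κ ^ 2 / (4 * κ) + 2 ≤ κ ^ 8 := by
    have e : 64 * κ ^ 6 * κ ^ 2 / (4 * κ) = 16 * κ ^ 7 := by
      field_simp; ring
    rw [e]
    have : κ ^ 8 = κ * κ ^ 7 := by ring
    have := hpow1 7
    nlinarith
  have hA2' : 0 ≤ 64 * κ ^ 6 * κ ^ 2 / (4 * κ) + 2 := by positivity
  have hA0 : 0 ≤ A := by
    have : 0 ≤ 8192 * N * (κ + 1) * Real.log (κ ^ 40) / ((κ ^ 40 - 1) * (4 * κ)) := by
      apply div_nonneg
      · positivity
      · have := hpow0 39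
        nlinarith
    rw [hA]
    exact mul_nonneg (by linarith) hA2'
  have hA3 : A + 1 ≤ N / κ ^ 29 + κ ^ 9 := by
    have h1 : A ≤ (N / κ ^ 37 + 1) * κ ^ 8 := by
      rw [hA]
      apply mul_le_mul _ hA2 hA2' (by positivity)
      linarith
    have h2 : (N / κ ^ 37 + 1) * κ ^ 8 = N / κ ^ 29 + κ ^ 8 := by
      field_simp
    have h3 : κ ^ 8 + 1 ≤ κ ^ 9 := by
      have : κ ^ 9 = κ * κ ^ 8 := by ring
      nlinarith [hpow1 8]
    linarith
  have hlogN : Real.log (N + 2) ≤ κ ^ 3 := by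
    have h1 : N + 2 ≤ κ ^ 4 * S ^ 2 := by
      rw [hNN]
      have e : κ ^ 4 * S ^ 2 = κ * (κ ^ 3 * S ^ 2) := by ring
      have : (1 : ℝ) ≤ κ ^ 3 * S ^ 2 := by
        have := hpow1 3
        have : (1 : ℝ) ≤ S ^ 2 := one_le_pow₀ hS1
        nlinarith
      rw [e]
      nlinarith
    calc Real.log (N + 2) ≤ Real.log (κ ^ 4 * S ^ 2) :=
          Real.log_le_log (by linarith) h1
      _ = 4 * Real.log κ + 2 * ℓ := by
          rw [Real.log_mul (hpow0 4).ne' (by positivity), Real.log_pow, Real.log_pow]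
          push_cast; rfl
      _ ≤ κ + 2 * κ ^ 2 := by nlinarith
      _ ≤ κ ^ 3 := by
          have : κ ^ 3 = κ * κ ^ 2 := by ring
          nlinarith [hpow1 2]
  have hk40 : (κ ^ 40) ^ k = κ ^ (40 * k) := by rw [← pow_mul]
  have hk40' : (κ ^ 40) ^ (k + 1) = κ ^ (40 * (k + 1)) := by rw [← pow_mul]
  refine ⟨⌈A⌉₊, ?_⟩
  constructor
  · exact hk1
  · have h : (1 : ℝ) ≤ (s : ℝ) := hS1
    exact_mod_cast h
  · -- β2
    calc (2 : ℝ) ≤ κ := le_trans (by norm_num) hκ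
      _ = κ ^ 1 := (pow_one κ).symm
      _ ≤ κ ^ 40 := hpm (by norm_num)
  · -- K_ge
    calc 4 * κ ≤ κ * κ := by nlinarith
      _ = κ ^ 2 := by ring
      _ ≤ κ ^ 6 := hpm (by norm_num)
  · -- K_sig
    calc 1024 * (4 * κ) * (600 * (4 * κ) ^ 2 * (1 + ℓ)) = 39321600 * κ ^ 3 * (1 + ℓ) := by ring
      _ ≤ 39321600 * κ ^ 3 * (2 * κ ^ 2) := by gcongr
      _ = 78643200 * κ ^ 5 := by ring
      _ ≤ κ * κ ^ 5 := by
          have := hpow0 5
          have : (78643200 : ℝ) ≤ κ := le_trans (by norm_num) hκ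
          gcongr
      _ = κ ^ 6 := by ring
  · exact hpow1 2
  · -- Y_ge
    have e : 16 * (600 * (4 * κ) ^ 2 * (1 + ℓ)) * (4 * κ) * (κ ^ 40) ^ k ≤
        κ ^ 6 * κ ^ (40 * k) := by
      rw [hk40]
      have : 16 * (600 * (4 * κ) ^ 2 * (1 + ℓ)) * (4 * κ) ≤ κ ^ 6 := by
        calc 16 * (600 * (4 * κ) ^ 2 * (1 + ℓ)) * (4 * κ) = 614400 * κ ^ 3 * (1 + ℓ) := by ring
          _ ≤ 614400 * κ ^ 3 * (2 * κ ^ 2) := by gcongr
          _ = 1228800 * κ ^ 5 := by ring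
          _ ≤ κ * κ ^ 5 := by
              have : (1228800 : ℝ) ≤ κ := le_trans (by norm_num) hκ
              gcongr
          _ = κ ^ 6 := by ring
      gcongr
    calc Real.log (16 * (600 * (4 * κ) ^ 2 * (1 + ℓ)) * (4 * κ) * (κ ^ 40) ^ k)
        ≤ Real.log (κ ^ 6 * κ ^ (40 * k)) := Real.log_le_log (by positivity) e
      _ = (6 + 40 * κ) * Real.log κ := by
          rw [← pow_add, Real.log_pow]; push_cast; rfl
      _ ≤ (6 + 40 * κ) * (κ / 5000) := by gcongr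
      _ ≤ κ ^ 2 := by nlinarith
  · -- r_ge
    calc 128 * (κ ^ 40) ^ (k + 1) * κ ^ 2 * (600 * (4 * κ) ^ 2 * (1 + ℓ) * S)
        = 1228800 * κ ^ 4 * (1 + ℓ) * κ ^ (40 * (k + 1)) * S := by rw [hk40']; ring
      _ ≤ 1228800 * κ ^ 4 * (2 * κ ^ 2) * κ ^ (40 * (k + 1)) * S := by gcongr
      _ = 2457600 * κ ^ 6 * κ ^ (40 * (k + 1)) * S := by ring
      _ ≤ κ * κ ^ 6 * κ ^ (40 * (k + 1)) * S := by
          have : (2457600 : ℝ) ≤ κ := le_trans (by norm_num) hκ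
          gcongr
      _ = κ ^ (7 + 40 * (k + 1)) * S := by rw [pow_add]; ring
      _ ≤ κ ^ (99 * k) * S := by
          have := @hpm (7 + 40 * (k + 1)) (99 * k) (by omega)
          gcongr
      _ ≤ S * S := by gcongr
      _ = S ^ 2 := by ring
  · -- β_big
    calc 4096 * κ ^ 6 * (κ ^ 2) ^ 2 = 4096 * κ ^ 10 := by ring
      _ ≤ κ * κ ^ 10 := by
          have : (4096 : ℝ) ≤ κ := le_trans (by norm_num) hκ
          gcongr
      _ = κ ^ 11 := by ring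
      _ ≤ κ ^ 39 := hpm (by norm_num)
      _ ≤ κ ^ 40 - 1 := hβ1
      _ ≤ (κ ^ 40 - 1) * (4 * κ) := by
          have := hpow0 39
          nlinarith
  · -- β_big2
    calc 8192 * (κ + 1) * Real.log (κ ^ 40) * 1024 * κ ^ 2
        ≤ 8192 * (2 * κ) * κ * 1024 * κ ^ 2 := by
          have : κ + 1 ≤ 2 * κ := by linarith
          gcongr
      _ = 16777216 * κ ^ 4 := by ring
      _ ≤ κ * κ ^ 4 := by
          have : (16777216 : ℝ) ≤ κ := le_trans (by norm_num) hκ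
          gcongr
      _ = κ ^ 5 := by ring
      _ ≤ κ ^ 39 := hpm (by norm_num)
      _ ≤ κ ^ 40 - 1 := hβ1
  · -- M_ge
    rw [← hA]
    exact Nat.le_ceil A
  · -- X_ok
    have h1 : (x : ℝ) ≤ N / (200 * κ ^ 20) := hxle
    have h2 : (x : ℝ) * (1 + κ ^ 6 * κ ^ 2) ≤ N / 512 := by
      calc (x : ℝ) * (1 + κ ^ 6 * κ ^ 2) ≤ N / (200 * κ ^ 20) * (1 + κ ^ 6 * κ ^ 2) := by gcongr
        _ ≤ N / (200 * κ ^ 20) * (2 * κ ^ 8) := by
            have : 1 + κ ^ 6 * κ ^ 2 ≤ 2 * κ ^ 8 := by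
              have e : κ ^ 6 * κ ^ 2 = κ ^ 8 := by ring
              rw [e]; linarith [hpow1 8]
            gcongr
        _ = N / (100 * κ ^ 12) := by field_simp; ring
        _ ≤ N / 512 := by
            apply div_le_div_of_nonneg_left hN0.le (by norm_num)
            have : κ ^ 1 ≤ κ ^ 12 := hpm (by norm_num)
            rw [pow_one] at this
            linarith [show (512 : ℝ) ≤ 10 ^ 9 by norm_num]
    have h3 : 16 * ((x : ℝ) * S) * (4 * κ) * (κ ^ 40) ^ k / S ^ 2 ≤ N / 512 := by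
      have h4 : κ * κ ^ (40 * k) ≤ S := by
        calc κ * κ ^ (40 * k) = κ ^ (40 * k + 1) := by ring
          _ ≤ κ ^ (99 * k) := hpm (by omega)
          _ ≤ S := hS'
      calc 16 * ((x : ℝ) * S) * (4 * κ) * (κ ^ 40) ^ k / S ^ 2
          = 64 * x * (κ * κ ^ (40 * k)) / S := by rw [hk40]; field_simp; ring
        _ ≤ 64 * x * S / S := by gcongr
        _ = 64 * x := by field_simp
        _ ≤ 64 * (N / (200 * κ ^ 20)) := by gcongr
        _ = N / (200 / 64 * κ ^ 20) := by field_simp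
        _ ≤ N / 512 := by
            apply div_le_div_of_nonneg_left hN0.le (by norm_num)
            have : κ ^ 1 ≤ κ ^ 20 := hpm (by norm_num)
            rw [pow_one] at this
            linarith [show (512 : ℝ) ≤ 10 ^ 9 by norm_num]
    have : N / 256 = N / 512 + N / 512 := by ring
    rw [this]
    exact add_le_add h2 h3
  · -- x_le'
    have : (x : ℝ) ≤ 72 * κ ^ 2 * S ^ 2 := by
      calc (x : ℝ) ≤ N / (200 * κ ^ 20) := hxle
        _ ≤ 72 * κ ^ 2 * S ^ 2 := by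
            rw [div_le_iff₀ (by positivity), hNN]
            have h1 : κ ^ 3 ≤ κ ^ 2 * κ ^ 20 := by rw [← pow_add]; exact hpm (by norm_num)
            have h2 : 0 < S ^ 2 := by positivity
            nlinarith [mul_le_mul_of_nonneg_right h1 h2.le, mul_pos (mul_pos (hpow0 2) (hpow0 20)) h2]
    have h : (x : ℝ) ≤ 72 * (k : ℝ) ^ 2 * (s : ℝ) ^ 2 := this
    exact_mod_cast h
  · -- D2
    calc 2 ≤ k := le_trans (by norm_num) hk
      _ = k ^ 1 := (pow_one k).symm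
      _ ≤ k ^ 20 := Nat.pow_le_pow_right hk1 (by norm_num)
  · exact hxmul
  · -- N_ge
    have : 40 * κ ^ 20 ≤ N := by
      calc 40 * κ ^ 20 ≤ κ * κ ^ 20 := by
            have : (40 : ℝ) ≤ κ := le_trans (by norm_num) hκ
            gcongr
        _ = κ ^ 21 := by ring
        _ ≤ κ ^ 38 := hpm (by norm_num)
        _ ≤ N := hN38
    have h : 40 * (k : ℝ) ^ 20 ≤ (NN k s : ℝ) := this
    exact_mod_cast h
  · -- M_le
    have h1 : (⌈A⌉₊ : ℝ) ≤ N / κ ^ 29 + κ ^ 9 := by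
      have := (Nat.ceil_lt_add_one hA0).le
      linarith
    have hlog0 : 0 ≤ Real.log (N + 2) := Real.log_nonneg (by linarith)
    have h2 : κ ^ 12 ≤ N / κ ^ 26 := by
      rw [le_div_iff₀ (hpow0 26), ← pow_add]
      exact hN38
    push_cast
    calc (⌈A⌉₊ : ℝ) * Real.log (N + 2) ≤ (N / κ ^ 29 + κ ^ 9) * κ ^ 3 := by gcongr
      _ = N / κ ^ 26 + κ ^ 12 := by field_simp
      _ ≤ N / κ ^ 26 + N / κ ^ 26 := by gcongr
      _ = 2 * N / κ ^ 26 := by ring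
      _ ≤ N / (200 * κ ^ 20) := by
          rw [div_le_div_iff₀ (hpow0 26) (by positivity)]
          have e : κ ^ 26 = κ ^ 6 * κ ^ 20 := by ring
          have h6 : (400 : ℝ) ≤ κ ^ 6 := by
            calc (400 : ℝ) ≤ κ := le_trans (by norm_num) hκ
              _ = κ ^ 1 := (pow_one κ).symm
              _ ≤ κ ^ 6 := hpm (by norm_num)
          rw [e]
          have := mul_le_mul_of_nonneg_right h6 (mul_pos hN0 (hpow0 20)).le
          nlinarith

end EpsNet.AsymAux
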