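import Pool.Agent.Work.MP_ef7f46_co.Interface

/-!
MP_ef7f46_co, block PB (helper75): a random set avoids all containers.
-/

set_option autoImplicit false
open Classical

namespace EpsNet.PBAux

variable {I : Type}

/-- the weight of a subset of `V` -/
noncomputable def mu (p : ℝ) (V A : Finset I) : ℝ := p ^ A.card * (1 - p) ^ (V.card - A.card)

lemma mu_nonneg {p : ℝ} (h0 : 0 ≤ p) (h1 : p ≤ 1) (V A : Finset I) : 0 ≤ mu p V A :=
  mul_nonneg (pow_nonneg h0 _) (pow_nonneg (by linarith) _)

lemma sum_mu (p : ℝ) (V : Finset I) : ∑ A ∈ V.powerset, mu p V A = 1 := by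
  unfold mu
  rw [Finset.sum_pow_mul_eq_add_pow]; simp

lemma sum_mu_two (p : ℝ) (V : Finset I) :
    ∑ A ∈ V.powerset, mu p V A * 2 ^ A.card = (1 + p) ^ V.card := by
  have : ∀ A ∈ V.powerset, mu p V A * 2 ^ A.card =
      (2 * p) ^ A.card * (1 - p) ^ (V.card - A.card) := by
    intro A _
    unfold mu; rw [mul_pow]; ring
  rw [Finset.sum_congr rfl this, Finset.sum_pow_mul_eq_add_pow]
  congr 1; ring

lemma sum_pair {p : ℝ} (h0 : 0 ≤ p) (h1 : p ≤ 1) (V U C : Finset I) (hU : U ⊆ V) (hC : C ⊆ V) :
    ∑ A ∈ V.powerset.filter (fun A => U ⊆ A ∧ A \ U ⊆ C), mu p V A ≤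
      p ^ U.card * (1 - p) ^ (V.card - U.card - (C \ U).card) := by
  have hsub : V.powerset.filter (fun A => U ⊆ A ∧ A \ U ⊆ C) ⊆
      (C \ U).powerset.image (fun A' => U ∪ A') := by
    intro A hA
    rw [Finset.mem_filter] at hA
    obtain ⟨_, hUA, hAC⟩ := hA
    rw [Finset.mem_image]
    refine ⟨A \ U, ?_, ?_⟩
    · rw [Finset.mem_powerset]
      intro a ha
      have ha' := Finset.mem_sdiff.mp ha
      exact Finset.mem_sdiff.mpr ⟨hAC ha, ha'.2⟩
    · exact Finset.union_sdiff_of_subset hUA
  have hdisj : Disjoint U (C \ U) := Finset.disjoint_sdiff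
  have hcard : U.card + (C \ U).card ≤ V.card := by
    rw [← Finset.card_union_of_disjoint hdisj]
    apply Finset.card_le_card
    intro a ha
    rcases Finset.mem_union.mp ha with h | h
    · exact hU h
    · exact hC (Finset.mem_sdiff.mp h).1
  refine le_trans (Finset.sum_le_sum_of_subset_of_nonneg hsub
    (fun A _ _ => mu_nonneg h0 h1 V A)) ?_
  rw [Finset.sum_image]
  · have : ∀ A' ∈ (C \ U).powerset, mu p V (U ∪ A') =
        p ^ U.card * (1 - p) ^ (V.card - U.card - (C \ U).card) *
          (p ^ A'.card * (1 - p) ^ ((C \ U).card - A'.card)) := by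
      intro A' hA'
      have hs := Finset.mem_powerset.mp hA'
      have hd : Disjoint U A' := Finset.disjoint_of_subset_right hs hdisj
      have hc := Finset.card_le_card hs
      unfold mu
      rw [Finset.card_union_of_disjoint hd]
      have e : V.card - (U.card + A'.card) =
          (V.card - U.card - (C \ U).card) + ((C \ U).card - A'.card) := by omega
      rw [e, pow_add, pow_add]; ring
    rw [Finset.sum_congr rfl this, ← Finset.mul_sum, Finset.sum_pow_mul_eq_add_pow]
    simp
  · intro A' hA' A'' hA'' h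
    have h1 := Finset.mem_powerset.mp (Finset.mem_coe.mp hA')
    have h2 := Finset.mem_powerset.mp (Finset.mem_coe.mp hA'')
    have e1 : (U ∪ A') \ U = A' := by
      rw [Finset.union_sdiff_cancel_left (Finset.disjoint_of_subset_right h1 hdisj)]
    have e2 : (U ∪ A'') \ U = A'' := by
      rw [Finset.union_sdiff_cancel_left (Finset.disjoint_of_subset_right h2 hdisj)]
    rw [← e1, ← e2]
    exact congrArg (fun B => B \ U) h

lemma sum_small {p : ℝ} (h0 : 0 ≤ p) (V : Finset I) (x : ℕ) :
    ∑ U ∈ V.powerset.filter (fun U => U.card ≤ x), p ^ U.card ≤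
      200 ^ x * (1 + p / 200) ^ V.card := by
  have h1 : ∀ U ∈ V.powerset.filter (fun U => U.card ≤ x), p ^ U.card ≤
      200 ^ x * (p / 200) ^ U.card := by
    intro U hU
    have hx := (Finset.mem_filter.mp hU).2
    have e : (200 : ℝ) ^ x * (p / 200) ^ U.card = 200 ^ (x - U.card) * p ^ U.card := by
      have : (200 : ℝ) ^ x = 200 ^ (x - U.card) * 200 ^ U.card := by
        rw [← pow_add]; congr 1; omega
      rw [this, div_pow]; field_simp
    rw [e]
    have : (1 : ℝ) ≤ 200 ^ (x - U.card) := one_le_pow₀ (by norm_num)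
    nlinarith [pow_nonneg h0 U.card]
  refine le_trans (Finset.sum_le_sum h1) ?_
  rw [← Finset.mul_sum]
  apply mul_le_mul_of_nonneg_left _ (by positivity)
  refine le_trans (Finset.sum_le_sum_of_subset_of_nonneg (Finset.filter_subset _ _)
    (fun U _ _ => by positivity)) ?_
  have := Finset.sum_pow_mul_eq_add_pow (p / 200) (1 : ℝ) V
  simp only [one_pow, mul_one] at this
  rw [this, add_comm]

end EpsNet.PBAux

namespace EpsNet

open EpsNet.PBAux

theorem stmt_PB : Stmt_PB := by
  intro I _ V D x M fam hD hx hN hM hfam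
  by_contra hcon
  push Not at hcon
  obtain ⟨N, hNdef⟩ : ∃ N : ℝ, N = (V.card : ℝ) := ⟨_, rfl⟩
  obtain ⟨d, hd⟩ : ∃ d : ℝ, d = (D : ℝ) := ⟨_, rfl⟩
  obtain ⟨p, hp⟩ : ∃ p : ℝ, p = 1 / d := ⟨_, rfl⟩
  have hd2 : 2 ≤ d := by rw [hd]; exact_mod_cast hD
  have hd0 : 0 < d := by linarith
  have hp0 : 0 < p := by rw [hp]; positivity
  have hp1 : p ≤ 1 := by rw [hp, div_le_one hd0]; linarith
  have hxR : 200 * d * x ≤ N := by rw [hd, hNdef]; exact_mod_cast hx
  have hNR : 40 * d ≤ N := by rw [hd, hNdef]; exact_mod_cast hN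
  have hN0 : 0 ≤ N := by linarith
  have hq40 : 40 ≤ p * N := by
    rw [hp, one_div, inv_mul_eq_div, le_div_iff₀ hd0]; exact hNR
  have hxq : (x : ℝ) ≤ p * N / 200 := by
    rw [hp, one_div, inv_mul_eq_div, div_div, le_div_iff₀ (by positivity)]
    linarith
  have hMR : (M : ℝ) * Real.log (N + 2) ≤ p * N / 200 := by
    rw [hp, one_div, inv_mul_eq_div, div_div]
    have := hM
    rw [← hNdef, ← hd] at this
    rwa [mul_comm d 200]
  -- pointwise bound
  have hpt : ∀ A ∈ V.powerset, mu p V A ≤ mu p V A * 2 ^ A.card * Real.exp (-(2 * Real.log 2 * (p * N)))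
      + ∑ U ∈ V.powerset.filter (fun U => U.card ≤ x), ∑ C ∈ fam U,
        if U ⊆ A ∧ A \ U ⊆ C then mu p V A else 0 := by
    intro A hA
    have hAV := Finset.mem_powerset.mp hA
    have hmu := mu_nonneg hp0.le hp1 V A
    by_cases hbig : D * A.card ≤ 2 * V.card
    · obtain ⟨U, hUA, hUx, C, hC, hAC⟩ := hcon A hAV hbig
      have h1 : mu p V A ≤ ∑ U ∈ V.powerset.filter (fun U => U.card ≤ x), ∑ C ∈ fam U,
          if U ⊆ A ∧ A \ U ⊆ C then mu p V A else 0 := by
        have hnn : ∀ U C : Finset I, 0 ≤ (if U ⊆ A ∧ A \ U ⊆ C then mu p V A else 0) := by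
          intro U C; split_ifs
          · exact hmu
          · exact le_refl 0
        have hUm : U ∈ V.powerset.filter (fun U => U.card ≤ x) := by
          rw [Finset.mem_filter, Finset.mem_powerset]
          exact ⟨hUA.trans hAV, hUx⟩
        refine le_trans ?_ (Finset.single_le_sum
          (f := fun U => ∑ C ∈ fam U, if U ⊆ A ∧ A \ U ⊆ C then mu p V A else 0)
          (fun U _ => Finset.sum_nonneg (fun C _ => hnn U C)) hUm)
        refine le_trans ?_ (Finset.single_le_sum
          (f := fun C => if U ⊆ A ∧ A \ U ⊆ C then mu p V A else 0)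
          (fun C _ => hnn U C) hC)
        rw [if_pos ⟨hUA, hAC⟩]
      have h2 : 0 ≤ mu p V A * 2 ^ A.card * Real.exp (-(2 * Real.log 2 * (p * N))) := by
        positivity
      linarith
    · have h1 : mu p V A ≤ mu p V A * 2 ^ A.card * Real.exp (-(2 * Real.log 2 * (p * N))) := by
        have h2 : (1 : ℝ) ≤ 2 ^ A.card * Real.exp (-(2 * Real.log 2 * (p * N))) := by
          have e : (2 : ℝ) ^ A.card = Real.exp (A.card * Real.log 2) := by
            rw [mul_comm, Real.exp_mul, Real.exp_log (by norm_num), Real.rpow_natCast]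
          rw [e, ← Real.exp_add]
          apply Real.one_le_exp
          have h3 : 2 * N < d * A.card := by
            rw [hNdef, hd]
            push Not at hbig
            exact_mod_cast hbig
          have h4 : 2 * (p * N) ≤ A.card := by
            rw [hp, one_div, inv_mul_eq_div, ← mul_div_assoc, div_le_iff₀ hd0]
            linarith
          have h5 : 0 ≤ Real.log 2 := Real.log_nonneg (by norm_num)
          nlinarith
        calc mu p V A = mu p V A * 1 := (mul_one _).symm
          _ ≤ mu p V A * (2 ^ A.card * Real.exp (-(2 * Real.log 2 * (p * N)))) := by gcongr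
          _ = _ := by ring
      have h2 : 0 ≤ ∑ U ∈ V.powerset.filter (fun U => U.card ≤ x), ∑ C ∈ fam U,
          if U ⊆ A ∧ A \ U ⊆ C then mu p V A else 0 := by
        apply Finset.sum_nonneg; intro U _
        apply Finset.sum_nonneg; intro C _
        split_ifs
        · exact hmu
        · exact le_refl 0
      linarith
  have htot := Finset.sum_le_sum hpt
  rw [sum_mu, Finset.sum_add_distrib] at htot
  -- first sum
  have hS1 : ∑ A ∈ V.powerset, mu p V A * 2 ^ A.card * Real.exp (-(2 * Real.log 2 * (p * N)))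
      ≤ Real.exp (-(4 / 5)) := by
    rw [← Finset.sum_mul, sum_mu_two]
    have h1 : (1 + p) ^ V.card ≤ Real.exp (p * N) := by
      calc (1 + p) ^ V.card ≤ (Real.exp p) ^ V.card := by
            apply pow_le_pow_left₀ (by linarith)
            linarith [Real.add_one_le_exp p]
        _ = Real.exp (p * N) := by
            rw [← Real.exp_nat_mul, hNdef, mul_comm]
    calc (1 + p) ^ V.card * Real.exp (-(2 * Real.log 2 * (p * N)))
        ≤ Real.exp (p * N) * Real.exp (-(2 * Real.log 2 * (p * N))) := by gcongr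
      _ = Real.exp (p * N + -(2 * Real.log 2 * (p * N))) := (Real.exp_add _ _).symm
      _ ≤ Real.exp (-(4 / 5)) := by
          apply Real.exp_le_exp.mpr
          have := Real.log_two_gt_d9
          nlinarith
  -- second sum
  have hS2 : ∑ A ∈ V.powerset, ∑ U ∈ V.powerset.filter (fun U => U.card ≤ x), ∑ C ∈ fam U,
      (if U ⊆ A ∧ A \ U ⊆ C then mu p V A else 0) ≤ Real.exp (-(4 / 5)) := by
    rw [Finset.sum_comm]
    have hU : ∀ U ∈ V.powerset.filter (fun U => U.card ≤ x),
        ∑ A ∈ V.powerset, ∑ C ∈ fam U, (if U ⊆ A ∧ A \ U ⊆ C then mu p V A else 0) ≤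
        p ^ U.card * (Real.exp (p * N / 200) * Real.exp (-(p * (N / 16 - x)))) := by
      intro U hU
      rw [Finset.mem_filter, Finset.mem_powerset] at hU
      obtain ⟨hUV, hUx⟩ := hU
      obtain ⟨hf1, hf2⟩ := hfam U hUV hUx
      rw [Finset.sum_comm]
      have hC : ∀ C ∈ fam U, ∑ A ∈ V.powerset, (if U ⊆ A ∧ A \ U ⊆ C then mu p V A else 0) ≤
          p ^ U.card * Real.exp (-(p * (N / 16 - x))) := by
        intro C hC
        obtain ⟨hCV, hC16⟩ := hf2 C hC
        rw [← Finset.sum_filter]
        refine le_trans (sum_pair hp0.le hp1 V U C hUV hCV) ?_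
        apply mul_le_mul_of_nonneg_left _ (by positivity)
        obtain ⟨m, hm⟩ : ∃ m : ℕ, m = V.card - U.card - (C \ U).card := ⟨_, rfl⟩
        rw [← hm]
        have hCU : (C \ U).card ≤ C.card := Finset.card_le_card Finset.sdiff_subset
        have hm2 : V.card ≤ m + x + C.card := by omega
        have hmR : N / 16 - x ≤ m := by
          have h1 : N ≤ m + x + C.card := by rw [hNdef]; exact_mod_cast hm2
          have h2 : (16 : ℝ) * C.card ≤ 15 * N := by rw [hNdef]; exact_mod_cast hC16
          linarith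
        calc (1 - p) ^ m ≤ (Real.exp (-p)) ^ m := by
              apply pow_le_pow_left₀ (by linarith)
              linarith [Real.add_one_le_exp (-p)]
          _ = Real.exp (-(p * m)) := by
              rw [← Real.exp_nat_mul]; congr 1; ring
          _ ≤ Real.exp (-(p * (N / 16 - x))) := by
              apply Real.exp_le_exp.mpr
              nlinarith
      refine le_trans (Finset.sum_le_sum hC) ?_
      rw [Finset.sum_const, nsmul_eq_mul]
      have hcardR : ((fam U).card : ℝ) ≤ Real.exp (p * N / 200) := by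
        have h1 : ((fam U).card : ℝ) ≤ (N + 2) ^ M := by
          rw [hNdef]; exact_mod_cast hf1
        have h2 : (N + 2) ^ M = Real.exp (M * Real.log (N + 2)) := by
          rw [mul_comm, Real.exp_mul, Real.exp_log (by linarith), Real.rpow_natCast]
        rw [h2] at h1
        exact h1.trans (Real.exp_le_exp.mpr hMR)
      calc ((fam U).card : ℝ) * (p ^ U.card * Real.exp (-(p * (N / 16 - x))))
          ≤ Real.exp (p * N / 200) * (p ^ U.card * Real.exp (-(p * (N / 16 - x)))) := by gcongr
        _ = _ := by ring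
    refine le_trans (Finset.sum_le_sum hU) ?_
    rw [← Finset.sum_mul]
    have h1 := sum_small hp0.le V x
    have h2 : (200 : ℝ) ^ x ≤ Real.exp (6 * x) := by
      have h3 : (200 : ℝ) ≤ Real.exp 6 := by
        have h4 : (2.7 : ℝ) ≤ Real.exp 1 := by linarith [Real.exp_one_gt_d9]
        have h5 : Real.exp 6 = (Real.exp 1) ^ 6 := by rw [← Real.exp_nat_mul]; norm_num
        rw [h5]
        calc (200 : ℝ) ≤ 2.7 ^ 6 := by norm_num
          _ ≤ (Real.exp 1) ^ 6 := by gcongr
      calc (200 : ℝ) ^ x ≤ (Real.exp 6) ^ x := by gcongr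
        _ = Real.exp (6 * x) := by rw [← Real.exp_nat_mul]; congr 1; ring
    have h3 : (1 + p / 200) ^ V.card ≤ Real.exp (p * N / 200) := by
      calc (1 + p / 200) ^ V.card ≤ (Real.exp (p / 200)) ^ V.card := by
            apply pow_le_pow_left₀ (by positivity)
            linarith [Real.add_one_le_exp (p / 200)]
        _ = Real.exp (p * N / 200) := by
            rw [← Real.exp_nat_mul, hNdef]; congr 1; ring
    calc (∑ U ∈ V.powerset.filter (fun U => U.card ≤ x), p ^ U.card) *
          (Real.exp (p * N / 200) * Real.exp (-(p * (N / 16 - x))))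
        ≤ (Real.exp (6 * x) * Real.exp (p * N / 200)) *
          (Real.exp (p * N / 200) * Real.exp (-(p * (N / 16 - x)))) := by
          have h4 := mul_le_mul h2 h3 (by positivity) (Real.exp_pos _).le
          have h5 := h1.trans h4
          gcongr
      _ = Real.exp ((6 * x + p * N / 200) + (p * N / 200 + -(p * (N / 16 - x)))) := by
          rw [Real.exp_add, Real.exp_add, Real.exp_add]
      _ ≤ Real.exp (-(4 / 5)) := by
          apply Real.exp_le_exp.mpr
          have hphalf : p ≤ 1 / 2 := by
            rw [hp]; exact one_div_le_one_div_of_le (by norm_num) hd2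
          have hx0 : (0 : ℝ) ≤ x := Nat.cast_nonneg x
          have hpx : p * x ≤ p * N / 400 := by nlinarith
          nlinarith
  have hhalf : Real.exp (-(4 / 5)) < 1 / 2 := by
    rw [Real.exp_neg, ← one_div]
    apply one_div_lt_one_div_of_lt (by norm_num)
    have := Real.quadratic_le_exp_of_nonneg (show (0 : ℝ) ≤ 4 / 5 by norm_num)
    linarith [show (2 : ℝ) < 1 + 4 / 5 + (4 / 5) ^ 2 / 2 by norm_num]
  linarith

end EpsNet
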